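import Mathlib

/-!
# Eternal domination and clique covers in prisms

Let `F` be the Grötzsch graph and `H` its complement, and let `G` be obtained from `H` by attaching
a pendant vertex to each of its 11 vertices.  Then `θ(G) = γ^∞(G) = 11`, whereas
`γ^∞(G □ K₂) ≤ 17 < 18 ≤ θ(G □ K₂)`.
-/

set_option autoImplicit false

open Finset

namespace Pool.Agent.Results.MP_349597_co.CoronaPrism

/-- the vertices of `G` can be partitioned into at most `k` cliques -/
def CliquePartition {V : Type} (G : SimpleGraph V) (k : ℕ) : Prop :=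
  ∃ c : V → Fin k, ∀ u v, c u = c v → u ≠ v → G.Adj u v

/-- the clique cover number -/
noncomputable def theta {V : Type} (G : SimpleGraph V) : ℕ := sInf {k | CliquePartition G k}

/-- an eternal family of dominating sets with `k` vertices -/
def IsEternal {V : Type} [DecidableEq V] (G : SimpleGraph V) (k : ℕ) (𝓓 : Set (Finset V)) : Prop :=
  𝓓.Nonempty ∧ ∀ D ∈ 𝓓, D.card = k ∧ (∀ v, v ∈ D ∨ ∃ u ∈ D, G.Adj u v) ∧
    ∀ v ∉ D, ∃ u ∈ D, G.Adj u v ∧ insert v (D.erase u) ∈ 𝓓

/-- the eternal domination number -/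
noncomputable def gammaInf {V : Type} [DecidableEq V] (G : SimpleGraph V) : ℕ :=
  sInf {k | 1 ≤ k ∧ ∃ 𝓓, IsEternal G k 𝓓}

/-! ### The Grötzsch graph -/

/-- adjacency in the Grötzsch graph: `0,...,4` is a pentagon, `5 + i` is joined to the neighbours of
`i` in the pentagon, and `10` is joined to `5,...,9` -/
def fadj (a b : Fin 11) : Bool :=
  let c (x y : ℕ) : Bool := x < 5 && y < 5 && ((x + 1) % 5 = y || (y + 1) % 5 = x)
  c a.val b.val || c a.val (b.val - 5) && (5 ≤ b.val && b.val < 10) ||
    c (a.val - 5) b.val && (5 ≤ a.val && a.val < 10) ||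
    (a.val = 10 && 5 ≤ b.val && b.val < 10) || (b.val = 10 && 5 ≤ a.val && a.val < 10)

theorem fadj_symm : ∀ a b, fadj a b = true → fadj b a = true := by decide +kernel

theorem fadj_irrefl : ∀ a, fadj a a = false := by decide +kernel

theorem triangle_free : ∀ a b c, fadj a b = true → fadj b c = true → fadj a c = false := by
  decide +kernel

/-- the graph `G`: the complement of the Grötzsch graph on the vertices `(v, false)`, with a pendant
vertex `(v, true)` at each `(v, false)` -/
def G : SimpleGraph (Fin 11 × Bool) where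
  Adj x y := (x.1 ≠ y.1 ∧ x.2 = false ∧ y.2 = false ∧ fadj x.1 y.1 = false) ∨
    (x.1 = y.1 ∧ x.2 ≠ y.2)
  symm := ⟨by
    rintro x y (⟨h1, h2, h3, h4⟩ | ⟨h1, h2⟩)
    · refine Or.inl ⟨h1.symm, h3, h2, ?_⟩
      by_contra h
      rw [Bool.not_eq_false] at h
      rw [fadj_symm _ _ h] at h4
      exact absurd h4 (by decide)
    · exact Or.inr ⟨h1.symm, h2.symm⟩⟩
  loopless := ⟨by
    rintro x (⟨h1, -⟩ | ⟨-, h1⟩)
    · exact h1 rfl
    · exact h1 rfl⟩

/-- the prism over `G` -/
abbrev GP : SimpleGraph ((Fin 11 × Bool) × Fin 2) := G □ (⊤ : SimpleGraph (Fin 2))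

/-! ### The graph `G` -/

theorem cover_G : CliquePartition G 11 := by
  refine ⟨fun x => x.1, ?_⟩
  rintro ⟨a, s⟩ ⟨b, t⟩ h hne
  obtain rfl : a = b := h
  refine Or.inr ⟨rfl, ?_⟩
  intro hst
  exact hne (Prod.ext rfl hst)

theorem pendant_adj {a b : Fin 11} {s : Bool} (h : G.Adj (a, true) (b, s)) : a = b := by
  rcases h with ⟨-, h, -⟩ | ⟨h, -⟩
  · exact absurd h (by simp)
  · exact h

theorem theta_G : theta G = 11 := by
  apply le_antisymm
  · exact Nat.sInf_le cover_G
  · apply le_csInf ⟨11, cover_G⟩
    rintro k ⟨c, hc⟩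
    have hinj : Function.Injective (fun a : Fin 11 => c (a, true)) := by
      intro a b hab
      by_contra hne
      exact hne (pendant_adj (hc _ _ hab (by simpa using hne)))
    simpa using Fintype.card_le_of_injective _ hinj

/-- the transversals of the pendant edges -/
def transversals : Set (Finset (Fin 11 × Bool)) :=
  {D | ∃ f : Fin 11 → Bool, D = univ.image fun a => (a, f a)}

theorem eternal_G : IsEternal G 11 transversals := by
  refine ⟨⟨_, fun _ => true, rfl⟩, ?_⟩
  rintro D ⟨f, rfl⟩
  refine ⟨?_, ?_, ?_⟩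
  · rw [card_image_of_injective]
    · simp
    · intro a b h
      exact congrArg Prod.fst h
  · rintro ⟨a, s⟩
    by_cases h : f a = s
    · left
      simp only [mem_image, mem_univ, true_and]
      exact ⟨a, by rw [h]⟩
    · right
      refine ⟨(a, f a), by simp, Or.inr ⟨rfl, h⟩⟩
  · rintro ⟨a, s⟩ hv
    have h : f a ≠ s := by
      intro h
      apply hv
      simp only [mem_image, mem_univ, true_and]
      exact ⟨a, by rw [h]⟩
    refine ⟨(a, f a), by simp, Or.inr ⟨rfl, h⟩, Function.update f a s, ?_⟩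
    ext ⟨b, t⟩
    simp only [mem_insert, mem_erase, mem_image, mem_univ, true_and, Prod.mk.injEq, ne_eq]
    by_cases hb : b = a
    · subst hb
      constructor
      · rintro (⟨-, rfl⟩ | ⟨h1, b', rfl, rfl⟩)
        · exact ⟨b, rfl, by simp⟩
        · exact absurd ⟨rfl, rfl⟩ h1
      · rintro ⟨b', rfl, h2⟩
        left
        exact ⟨rfl, by rw [← h2]; simp⟩
    · constructor
      · rintro (⟨h1, -⟩ | ⟨h1, b', rfl, rfl⟩)
        · exact absurd h1 hb
        · exact ⟨b', rfl, by rw [Function.update_of_ne hb]⟩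
      · rintro ⟨b', rfl, h2⟩
        right
        rw [Function.update_of_ne hb] at h2
        exact ⟨fun h => hb h.1, b', rfl, h2⟩

theorem gammaInf_G : gammaInf G = 11 := by
  apply le_antisymm
  · exact Nat.sInf_le ⟨by norm_num, _, eternal_G⟩
  · have hne : {k | 1 ≤ k ∧ ∃ 𝓓, IsEternal G k 𝓓}.Nonempty := ⟨11, by norm_num, _, eternal_G⟩
    apply le_csInf hne
    rintro k ⟨-, 𝓓, ⟨D, hD⟩, h⟩
    obtain ⟨hcard, hdom, -⟩ := h D hD
    have h1 : ∀ a : Fin 11, ∃ s, (a, s) ∈ D := by
      intro a
      rcases hdom (a, true) with h | ⟨⟨b, s⟩, hb, hadj⟩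
      · exact ⟨true, h⟩
      · obtain rfl := pendant_adj hadj.symm
        exact ⟨s, hb⟩
    choose f hf using h1
    have h2 : (univ.image fun a => (a, f a)) ⊆ D := by
      intro x hx
      simp only [mem_image, mem_univ, true_and] at hx
      obtain ⟨a, rfl⟩ := hx
      exact hf a
    have h3 := card_le_card h2
    have h4 : Function.Injective (fun a : Fin 11 => (a, f a)) := fun a b h => congrArg Prod.fst h
    rw [card_image_of_injective _ h4, hcard] at h3
    simpa using h3

/-! ### Guards in the prism -/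

/-- sets of three vertices of the Grötzsch graph that contain an edge of that graph -/
def Good (T : Finset (Fin 11)) : Prop := T.card = 3 ∧ ∃ x ∈ T, ∃ y ∈ T, fadj x y = true

theorem good_dom {T : Finset (Fin 11)} (hT : Good T) (v : Fin 11) :
    v ∈ T ∨ ∃ u ∈ T, u ≠ v ∧ fadj u v = false := by
  obtain ⟨-, x, hx, y, hy, hxy⟩ := hT
  by_cases hv : v ∈ T
  · exact Or.inl hv
  · right
    by_cases h : fadj y v = true
    · exact ⟨x, hx, fun h => hv (h ▸ hx), triangle_free x y v hxy h⟩
    · exact ⟨y, hy, fun h => hv (h ▸ hy), by simpa using h⟩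

theorem good_card {T : Finset (Fin 11)} (hT : T.card = 3) {u v : Fin 11} (hu : u ∈ T)
    (hv : v ∉ T) : (insert v (T.erase u)).card = 3 := by
  rw [card_insert_of_notMem (fun h => hv (mem_of_mem_erase h)), card_erase_of_mem hu, hT]

theorem good_move {T : Finset (Fin 11)} (hT : Good T) {v : Fin 11} (hv : v ∉ T) :
    ∃ u ∈ T, u ≠ v ∧ fadj u v = false ∧ Good (insert v (T.erase u)) := by
  obtain ⟨hc, x, hx, y, hy, hxy⟩ := hT
  have hne : ∀ u ∈ T, u ≠ v := fun u hu h => hv (h ▸ hu)
  have hxney : x ≠ y := by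
    rintro rfl
    rw [fadj_irrefl] at hxy
    exact absurd hxy (by decide)
  have hyx := fadj_symm _ _ hxy
  by_cases h1 : fadj x v = true
  · have h2 : fadj y v = false := triangle_free y x v hyx h1
    refine ⟨y, hy, hne y hy, h2, good_card hc hy hv, x, ?_, v, by simp, h1⟩
    simp [hx, hxney]
  · have h1' : fadj x v = false := by simpa using h1
    by_cases h2 : fadj y v = true
    · refine ⟨x, hx, hne x hx, h1', good_card hc hx hv, y, ?_, v, by simp, h2⟩
      simp [hy, hxney.symm]
    · have h2' : fadj y v = false := by simpa using h2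
      -- the third vertex
      have hcard : ((T.erase x).erase y).card = 1 := by
        rw [card_erase_of_mem (by simp [hy, hxney.symm]), card_erase_of_mem hx, hc]
      obtain ⟨z, hz⟩ := card_eq_one.1 hcard
      have hz' : z ∈ (T.erase x).erase y := by rw [hz]; simp
      simp only [mem_erase] at hz'
      obtain ⟨hzy, hzx, hzT⟩ := hz'
      by_cases h3 : fadj z v = true
      · refine ⟨x, hx, hne x hx, h1', good_card hc hx hv, z, ?_, v, by simp, h3⟩
        simp [hzT, hzx]
      · have h3' : fadj z v = false := by simpa using h3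
        refine ⟨z, hzT, hne z hzT, h3', good_card hc hzT hv, x, ?_, y, ?_, hxy⟩
        · simp [hx, hzx.symm]
        · simp [hy, hzy.symm]

/-- the positions of 17 guards: one on each edge formed by two copies of a pendant vertex, and a
good triple in each of the two copies of the core -/
def pos (f : Fin 11 → Fin 2) (T : Fin 2 → Finset (Fin 11)) : Finset ((Fin 11 × Bool) × Fin 2) :=
  univ.filter fun x => if x.1.2 = true then f x.1.1 = x.2 else x.1.1 ∈ T x.2

theorem mem_pos_true (f : Fin 11 → Fin 2) (T : Fin 2 → Finset (Fin 11)) (a : Fin 11) (i : Fin 2) :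
    ((a, true), i) ∈ pos f T ↔ f a = i := by simp [pos]

theorem mem_pos_false (f : Fin 11 → Fin 2) (T : Fin 2 → Finset (Fin 11)) (a : Fin 11) (i : Fin 2) :
    ((a, false), i) ∈ pos f T ↔ a ∈ T i := by simp [pos]

theorem card_pos' (f : Fin 11 → Fin 2) (T : Fin 2 → Finset (Fin 11)) (hT : ∀ i, (T i).card = 3) :
    (pos f T).card = 17 := by
  have h : pos f T = (univ.image fun a : Fin 11 => ((a, true), f a)) ∪
      ((T 0).image fun a => ((a, false), (0 : Fin 2))) ∪
      ((T 1).image fun a => ((a, false), (1 : Fin 2))) := by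
    ext ⟨⟨a, s⟩, i⟩
    cases s
    · rw [mem_pos_false]
      fin_cases i <;> simp
    · rw [mem_pos_true]
      simp [Prod.mk.injEq]
  rw [h, card_union_of_disjoint, card_union_of_disjoint, card_image_of_injective,
    card_image_of_injective, card_image_of_injective, hT, hT]
  · simp
  · intro a b hab
    simpa using hab
  · intro a b hab
    simpa using hab
  · intro a b hab
    simp only [Prod.mk.injEq] at hab
    exact hab.1.1
  · rw [Finset.disjoint_left]
    intro x hx hx'
    simp only [mem_image, mem_univ, true_and] at hx hx'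
    obtain ⟨a, rfl⟩ := hx
    obtain ⟨b, -, hb⟩ := hx'
    simp at hb
  · rw [Finset.disjoint_left]
    intro x hx hx'
    simp only [mem_image, mem_univ, true_and, mem_union] at hx hx'
    obtain ⟨b, -, rfl⟩ := hx'
    rcases hx with ⟨a, ha⟩ | ⟨a, -, ha⟩
    · simp at ha
    · simp at ha

theorem other (i j : Fin 2) (h : i ≠ j) : (⊤ : SimpleGraph (Fin 2)).Adj i j := h

theorem eternal_GP : IsEternal GP 17 {D | ∃ f T, (∀ i, Good (T i)) ∧ D = pos f T} := by
  have hg : Good {0, 1, 2} := ⟨by decide, 0, by simp, 1, by simp, by decide⟩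
  refine ⟨⟨_, fun _ => 0, fun _ => {0, 1, 2}, fun _ => hg, rfl⟩, ?_⟩
  rintro D ⟨f, T, hT, rfl⟩
  refine ⟨card_pos' f T fun i => (hT i).1, ?_, ?_⟩
  · rintro ⟨⟨a, s⟩, i⟩
    cases s
    · rw [mem_pos_false]
      rcases good_dom (hT i) a with h | ⟨u, hu, hne, hadj⟩
      · exact Or.inl h
      · right
        refine ⟨((u, false), i), (mem_pos_false _ _ _ _).2 hu, ?_⟩
        rw [SimpleGraph.boxProd_adj]
        exact Or.inl ⟨Or.inl ⟨hne, rfl, rfl, hadj⟩, rfl⟩
    · rw [mem_pos_true]
      by_cases h : f a = i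
      · exact Or.inl h
      · right
        refine ⟨((a, true), f a), (mem_pos_true _ _ _ _).2 rfl, ?_⟩
        rw [SimpleGraph.boxProd_adj]
        exact Or.inr ⟨other _ _ h, rfl⟩
  · rintro ⟨⟨a, s⟩, i⟩ hv
    cases s
    · rw [mem_pos_false] at hv
      obtain ⟨u, hu, hne, hadj, hgood⟩ := good_move (hT i) hv
      refine ⟨((u, false), i), (mem_pos_false _ _ _ _).2 hu, ?_, f,
        Function.update T i (insert a ((T i).erase u)), ?_, ?_⟩
      · rw [SimpleGraph.boxProd_adj]
        exact Or.inl ⟨Or.inl ⟨hne, rfl, rfl, hadj⟩, rfl⟩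
      · intro j
        by_cases hj : j = i
        · subst hj
          rw [Function.update_self]
          exact hgood
        · rw [Function.update_of_ne hj]
          exact hT j
      · ext ⟨⟨b, t⟩, j⟩
        cases t
        · rw [mem_pos_false, mem_insert, mem_erase, mem_pos_false]
          by_cases hj : j = i
          · subst hj
            rw [Function.update_self, mem_insert, mem_erase]
            simp
          · rw [Function.update_of_ne hj]
            simp [hj]
        · rw [mem_pos_true, mem_insert, mem_erase, mem_pos_true]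
          simp
    · rw [mem_pos_true] at hv
      refine ⟨((a, true), f a), (mem_pos_true _ _ _ _).2 rfl, ?_, Function.update f a i, T, hT, ?_⟩
      · rw [SimpleGraph.boxProd_adj]
        exact Or.inr ⟨other _ _ hv, rfl⟩
      · ext ⟨⟨b, t⟩, j⟩
        cases t
        · rw [mem_pos_false, mem_insert, mem_erase, mem_pos_false]
          simp
        · rw [mem_pos_true, mem_insert, mem_erase, mem_pos_true]
          by_cases hb : b = a
          · subst hb
            rw [Function.update_self]
            simp only [Prod.mk.injEq, true_and, ne_eq]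
            constructor
            · rintro (h | ⟨h1, h2⟩)
              · exact h.symm
              · exact absurd h2.symm h1
            · intro h
              exact Or.inl h.symm
          · rw [Function.update_of_ne hb]
            simp [hb]

theorem gammaInf_GP : gammaInf GP ≤ 17 := Nat.sInf_le ⟨by norm_num, _, eternal_GP⟩

/-! ### Clique partitions of the prism -/

theorem pentagon : ∀ (t : Fin 3) (h : Fin 5 → Fin 3), (∀ i, h i ≠ t) → ∃ i, h i = h (i + 1) := by
  decide +kernel

/-- The Grötzsch graph has no proper colouring with 3 colours. -/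
theorem not_three (f : Fin 11 → Fin 3) : ∃ a b, fadj a b = true ∧ f a = f b := by
  by_contra hcon
  push Not at hcon
  let v : Fin 5 → Fin 11 := fun i => ⟨i.val, by omega⟩
  let u : Fin 5 → Fin 11 := fun i => ⟨5 + i.val, by omega⟩
  have h1 : ∀ i, fadj (v i) (v (i + 1)) = true := by decide
  have h2 : ∀ i, fadj (u i) (v (i + 1)) = true := by decide
  have h3 : ∀ i, fadj (v i) (u (i + 1)) = true := by decide
  have h4 : ∀ i, fadj (u i) 10 = true := by decide
  obtain ⟨i, hi⟩ := pentagon (f 10) (fun i => if f (v i) = f 10 then f (u i) else f (v i)) (by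
    intro i
    by_cases h : f (v i) = f 10
    · rw [if_pos h]
      exact hcon _ _ (h4 i)
    · rw [if_neg h]
      exact h)
  by_cases ha : f (v i) = f 10 <;> by_cases hb : f (v (i + 1)) = f 10
  · exact hcon _ _ (h1 i) (ha.trans hb.symm)
  · rw [if_pos ha, if_neg hb] at hi
    exact hcon _ _ (h2 i) hi
  · rw [if_neg ha, if_pos hb] at hi
    exact hcon _ _ (h3 i) hi
  · rw [if_neg ha, if_neg hb] at hi
    exact hcon _ _ (h1 i) hi

/-- For any two vertices of the Grötzsch graph there is a pentagon that avoids both. -/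
theorem avoid : ∀ x y : Fin 11, ∃ l ∈ ([[0, 1, 2, 3, 4], [5, 1, 2, 3, 4], [0, 6, 2, 3, 4],
    [0, 1, 7, 3, 4], [0, 1, 2, 8, 4], [0, 1, 2, 3, 9], [10, 5, 1, 2, 8], [10, 6, 2, 3, 9],
    [10, 7, 3, 4, 5], [10, 8, 4, 0, 6], [10, 9, 0, 1, 7], [5, 1, 7, 3, 4], [0, 6, 2, 8, 4],
    [0, 1, 7, 3, 9], [5, 1, 2, 8, 4], [0, 6, 2, 3, 9]] : List (List (Fin 11))),
    x ∉ l ∧ y ∉ l ∧ l.length = 5 ∧ List.IsChain (fun a b => fadj a b = true) (l ++ [l.headI]) := by
  decide +kernel


/-- A proper colouring of an induced subgraph of the Grötzsch graph with `q` colours covers at most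
`2 q + 4` vertices. -/
theorem colour_bound {k : ℕ} (W : Finset (Fin 11)) (g : Fin 11 → Fin k)
    (hg : ∀ a ∈ W, ∀ b ∈ W, fadj a b = true → g a ≠ g b) : W.card ≤ 2 * (W.image g).card + 4 := by
  by_contra hcon
  push Not at hcon
  have hW : W.card ≤ 11 := by simpa using card_le_univ W
  have hq : (W.image g).card ≤ 3 := by omega
  have hWne : W.Nonempty := by
    rw [← card_pos]
    omega
  have hQne : (W.image g).Nonempty := hWne.image g
  have hQ1 : 1 ≤ (W.image g).card := card_pos.2 hQne
  -- colours as elements of `Fin 3`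
  obtain ⟨φ, hφ⟩ : ∃ φ : Fin k → Fin 3, Set.InjOn φ (W.image g) ∧
      ∀ x ∈ W.image g, (φ x).val < (W.image g).card := by
    have e := (W.image g).equivFin
    refine ⟨fun x => if h : x ∈ W.image g then ⟨(e ⟨x, h⟩).val, by omega⟩ else 0, ?_, ?_⟩
    · intro x hx y hy hxy
      have hx' : x ∈ W.image g := hx
      have hy' : y ∈ W.image g := hy
      simp only [dif_pos hx', dif_pos hy', Fin.mk.injEq] at hxy
      have := e.injective (Fin.ext hxy)
      exact congrArg Subtype.val this
    · intro x hx
      simp only [dif_pos hx]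
      exact (e ⟨x, hx⟩).2
  have hmem : ∀ a ∈ W, g a ∈ W.image g := fun a ha => mem_image_of_mem g ha
  have hprop : ∀ a ∈ W, ∀ b ∈ W, fadj a b = true → φ (g a) ≠ φ (g b) := by
    intro a ha b hb hab h
    exact hg a ha b hb hab (hφ.1 (hmem a ha) (hmem b hb) h)
  by_cases h3 : (W.image g).card = 3
  · have hWu : W = univ := by
      rw [← card_eq_iff_eq_univ, Fintype.card_fin]
      omega
    obtain ⟨a, b, hab, heq⟩ := not_three (fun a => φ (g a))
    exact hprop a (by rw [hWu]; simp) b (by rw [hWu]; simp) hab heq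
  · -- at most two vertices are missing, or the colouring has one colour
    by_cases h2 : (W.image g).card = 2
    · have hc : Wᶜ.card ≤ 2 := by
        rw [card_compl, Fintype.card_fin]
        omega
      obtain ⟨x, y, hxy⟩ : ∃ x y : Fin 11, Wᶜ ⊆ {x, y} := by
        rcases Nat.lt_or_ge Wᶜ.card 2 with h | h
        · have h1 : Wᶜ.card ≤ 1 := by omega
          obtain ⟨x, hx⟩ := card_le_one_iff_subset_singleton.1 h1
          exact ⟨x, x, by simpa using hx⟩
        · obtain ⟨x, y, -, hxy⟩ := card_eq_two.1 (le_antisymm hc h)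
          exact ⟨x, y, by rw [hxy]⟩
      have hin : ∀ a, a ≠ x → a ≠ y → a ∈ W := by
        intro a h1 h2
        by_contra h
        have := hxy (mem_compl.2 h)
        simp only [mem_insert, mem_singleton] at this
        tauto
      have hlt : ∀ a ∈ W, (φ (g a)).val < 2 := by
        intro a ha
        have := hφ.2 (g a) (hmem a ha)
        omega
      obtain ⟨l, -, hx, hy, hlen, hchain⟩ := avoid x y
      match l, hlen, hx, hy, hchain with
      | [a, b, c, d, e], _, hx, hy, hchain =>
        simp only [List.mem_cons, List.not_mem_nil, or_false, not_or] at hx hy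
        obtain ⟨hxa, hxb, hxc, hxd, hxe⟩ := hx
        obtain ⟨hya, hyb, hyc, hyd, hye⟩ := hy
        have ha := hin a (Ne.symm hxa) (Ne.symm hya)
        have hb := hin b (Ne.symm hxb) (Ne.symm hyb)
        have hc := hin c (Ne.symm hxc) (Ne.symm hyc)
        have hd := hin d (Ne.symm hxd) (Ne.symm hyd)
        have he := hin e (Ne.symm hxe) (Ne.symm hye)
        simp only [List.cons_append, List.nil_append, List.headI_cons, List.isChain_cons_cons,
          List.isChain_singleton, and_true] at hchain
        obtain ⟨e1, e2, e3, e4, e5⟩ := hchain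
        have n1 : (φ (g a)).val ≠ (φ (g b)).val := fun h => hprop a ha b hb e1 (Fin.ext h)
        have n2 : (φ (g b)).val ≠ (φ (g c)).val := fun h => hprop b hb c hc e2 (Fin.ext h)
        have n3 : (φ (g c)).val ≠ (φ (g d)).val := fun h => hprop c hc d hd e3 (Fin.ext h)
        have n4 : (φ (g d)).val ≠ (φ (g e)).val := fun h => hprop d hd e he e4 (Fin.ext h)
        have n5 : (φ (g e)).val ≠ (φ (g a)).val := fun h => hprop e he a ha e5 (Fin.ext h)
        have l1 := hlt a ha
        have l2 := hlt b hb
        have l3 := hlt c hc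
        have l4 := hlt d hd
        have l5 := hlt e he
        omega
    · have h1 : (W.image g).card = 1 := by omega
      have hind : ∀ a ∈ W, ∀ b ∈ W, fadj a b = false := by
        intro a ha b hb
        by_contra h
        rw [Bool.not_eq_false] at h
        have ha' := hφ.2 _ (hmem a ha)
        have hb' := hφ.2 _ (hmem b hb)
        exact hprop a ha b hb h (Fin.ext (by omega))
      -- at most one vertex of each of the edges 01, 23, 56... of a matching with five edges
      have key : ∀ a b : Fin 11, fadj a b = true → (W ∩ {a, b}).card ≤ 1 := by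
        intro a b hab
        rw [card_le_one]
        intro x hx y hy
        simp only [mem_inter, mem_insert, mem_singleton] at hx hy
        rcases hx with ⟨hx, rfl | rfl⟩ <;> rcases hy with ⟨hy, rfl | rfl⟩
        · rfl
        · rw [hind _ hx _ hy] at hab
          exact absurd hab (by decide)
        · rw [hind _ hy _ hx] at hab
          exact absurd hab (by decide)
        · rfl
      have hcov : W ⊆ (W ∩ {0, 6}) ∪ (W ∩ {1, 7}) ∪ (W ∩ {2, 8}) ∪ (W ∩ {3, 9}) ∪ (W ∩ {4, 5}) ∪
          {10} := by
        intro a ha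
        simp only [mem_union, mem_inter, ha, true_and, mem_insert, mem_singleton]
        clear ha
        revert a
        decide
      have h7 := card_le_card hcov
      have u1 := card_union_le ((W ∩ {0, 6}) ∪ (W ∩ {1, 7}) ∪ (W ∩ {2, 8}) ∪ (W ∩ {3, 9}) ∪
        (W ∩ {4, 5})) {10}
      have u2 := card_union_le ((W ∩ {0, 6}) ∪ (W ∩ {1, 7}) ∪ (W ∩ {2, 8}) ∪ (W ∩ {3, 9}))
        (W ∩ {4, 5})
      have u3 := card_union_le ((W ∩ {0, 6}) ∪ (W ∩ {1, 7}) ∪ (W ∩ {2, 8})) (W ∩ {3, 9})
      have u4 := card_union_le ((W ∩ {0, 6}) ∪ (W ∩ {1, 7})) (W ∩ {2, 8})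
      have u5 := card_union_le (W ∩ {0, 6}) (W ∩ {1, 7})
      have k1 := key 0 6 (by decide)
      have k2 := key 1 7 (by decide)
      have k3 := key 2 8 (by decide)
      have k4 := key 3 9 (by decide)
      have k5 := key 4 5 (by decide)
      have k6 : ({10} : Finset (Fin 11)).card = 1 := card_singleton _
      omega

theorem GP_adj {a b : Fin 11} {s t : Bool} {i j : Fin 2} (h : GP.Adj ((a, s), i) ((b, t), j)) :
    (G.Adj (a, s) (b, t) ∧ i = j) ∨ (i ≠ j ∧ a = b ∧ s = t) := by
  rw [SimpleGraph.boxProd_adj] at h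
  rcases h with ⟨h1, h2⟩ | ⟨h1, h2⟩
  · exact Or.inl ⟨h1, h2⟩
  · simp only [Prod.mk.injEq] at h2
    exact Or.inr ⟨h1, h2.1, h2.2⟩

theorem theta_GP_ge {k : ℕ} (h : CliquePartition GP k) : 18 ≤ k := by
  obtain ⟨c, hc⟩ := h
  have key : ∀ (a b : Fin 11) (s t : Bool) (i j : Fin 2), c ((a, s), i) = c ((b, t), j) →
      (a = b ∧ s = t) ∨ (G.Adj (a, s) (b, t) ∧ i = j) := by
    intro a b s t i j h
    by_cases he : (((a, s), i) : (Fin 11 × Bool) × Fin 2) = ((b, t), j)
    · simp only [Prod.mk.injEq] at he
      exact Or.inl ⟨he.1.1, he.1.2⟩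
    · rcases GP_adj (hc _ _ h he) with h1 | h1
      · exact Or.inr h1
      · exact Or.inl h1.2
  let U : Finset (Fin 11) := univ.filter fun a => c ((a, true), 0) = c ((a, true), 1)
  let M : Finset (Fin 11) := U.filter fun a => c ((a, false), 0) = c ((a, false), 1)
  let W : Finset (Fin 11) := U \ M
  have hU : ∀ a, a ∈ U ↔ c ((a, true), 0) = c ((a, true), 1) := by
    intro a
    simp [U]
  have hM : ∀ a ∈ M, a ∈ U ∧ c ((a, false), 0) = c ((a, false), 1) := by
    intro a ha
    exact mem_filter.1 ha
  have hW : ∀ a ∈ W, a ∈ U ∧ a ∉ M := by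
    intro a ha
    exact mem_sdiff.1 ha
  have hMU : M ⊆ U := filter_subset _ _
  have hWc : W.card = U.card - M.card := card_sdiff_of_subset hMU
  have hMc : M.card ≤ U.card := card_le_card hMU
  have hUc : U.card ≤ 11 := by simpa using card_le_univ U
  let A0 : Finset (Fin k) := univ.image fun a : Fin 11 => c ((a, true), 0)
  let A1 : Finset (Fin k) := Uᶜ.image fun a : Fin 11 => c ((a, true), 1)
  let A2 : Finset (Fin k) := M.image fun a : Fin 11 => c ((a, false), 0)
  let Q0 : Finset (Fin k) := W.image fun a : Fin 11 => c ((a, false), 0)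
  let Q1 : Finset (Fin k) := W.image fun a : Fin 11 => c ((a, false), 1)
  have pend : ∀ (a b : Fin 11) (i : Fin 2), c ((a, true), i) = c ((b, true), i) → a = b := by
    intro a b i h
    rcases key _ _ _ _ _ _ h with h | h
    · exact h.1
    · exact pendant_adj h.1
  -- a vertical class in the core
  have vert : ∀ (m b : Fin 11), m ∈ M → c ((m, false), 0) = c ((b, false), 0) → m = b := by
    intro m b hm h
    rw [(hM m hm).2] at h
    rcases key _ _ _ _ _ _ h with h | h
    · exact h.1
    · exact absurd h.2 (by decide)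
  have cross : ∀ (a b : Fin 11) (i j : Fin 2), i ≠ j → c ((a, true), i) = c ((b, false), j) →
      False := by
    intro a b i j hij h
    rcases key _ _ _ _ _ _ h with h | h
    · exact absurd h.2 (by decide)
    · exact hij h.2
  -- a pendant vertex over `U` is not in the class of a vertex of the core over `U`
  have pc : ∀ (a b : Fin 11), b ∈ U → c ((a, true), 0) = c ((b, false), 0) → False := by
    intro a b hb h
    have hab : a = b := by
      rcases key _ _ _ _ _ _ h with h | h
      · exact h.1
      · exact pendant_adj h.1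
    subst hab
    rw [(hU a).1 hb] at h
    exact cross _ _ _ _ (by decide) h
  have c0 : A0.card = 11 := by
    rw [card_image_of_injective _ (fun a b h => pend a b 0 h)]
    simp
  have c1 : A1.card = 11 - U.card := by
    rw [card_image_of_injective _ (fun a b h => pend a b 1 h), card_compl, Fintype.card_fin]
  have c2 : A2.card = M.card := by
    apply card_image_of_injOn
    intro a ha b hb h
    exact vert a b ha h
  have d01 : Disjoint A0 A1 := by
    rw [Finset.disjoint_left]
    intro x hx hx'
    simp only [A0, A1, mem_image, mem_univ, true_and, mem_compl] at hx hx'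
    obtain ⟨a, rfl⟩ := hx
    obtain ⟨b, hb, h⟩ := hx'
    rcases key _ _ _ _ _ _ h with h' | h'
    · rw [hU] at hb
      rw [← h'.1] at h
      exact hb h.symm
    · exact absurd h'.2 (by decide)
  have d02 : Disjoint A0 A2 := by
    rw [Finset.disjoint_left]
    intro x hx hx'
    simp only [A0, A2, mem_image, mem_univ, true_and] at hx hx'
    obtain ⟨a, rfl⟩ := hx
    obtain ⟨b, hb, h⟩ := hx'
    exact pc a b (hM b hb).1 h.symm
  have d0q0 : Disjoint A0 Q0 := by
    rw [Finset.disjoint_left]
    intro x hx hx'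
    simp only [A0, Q0, mem_image, mem_univ, true_and] at hx hx'
    obtain ⟨a, rfl⟩ := hx
    obtain ⟨b, hb, h⟩ := hx'
    exact pc a b (hW b hb).1 h.symm
  have d0q1 : Disjoint A0 Q1 := by
    rw [Finset.disjoint_left]
    intro x hx hx'
    simp only [A0, Q1, mem_image, mem_univ, true_and] at hx hx'
    obtain ⟨a, rfl⟩ := hx
    obtain ⟨b, hb, h⟩ := hx'
    exact cross a b 0 1 (by decide) h.symm
  have d12 : Disjoint A1 A2 := by
    rw [Finset.disjoint_left]
    intro x hx hx'
    simp only [A1, A2, mem_image] at hx hx'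
    obtain ⟨a, ha, rfl⟩ := hx
    obtain ⟨b, hb, h⟩ := hx'
    exact cross a b 1 0 (by decide) h.symm
  have d1q0 : Disjoint A1 Q0 := by
    rw [Finset.disjoint_left]
    intro x hx hx'
    simp only [A1, Q0, mem_image] at hx hx'
    obtain ⟨a, ha, rfl⟩ := hx
    obtain ⟨b, hb, h⟩ := hx'
    exact cross a b 1 0 (by decide) h.symm
  have d1q1 : Disjoint A1 Q1 := by
    rw [Finset.disjoint_left]
    intro x hx hx'
    simp only [A1, Q1, mem_image, mem_compl] at hx hx'
    obtain ⟨a, ha, rfl⟩ := hx
    obtain ⟨b, hb, h⟩ := hx'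
    have hab : a = b := by
      rcases key _ _ _ _ _ _ h.symm with h | h
      · exact h.1
      · exact pendant_adj h.1
    exact ha (hab ▸ (hW b hb).1)
  have d2q0 : Disjoint A2 Q0 := by
    rw [Finset.disjoint_left]
    intro x hx hx'
    simp only [A2, Q0, mem_image] at hx hx'
    obtain ⟨a, ha, rfl⟩ := hx
    obtain ⟨b, hb, h⟩ := hx'
    exact (hW b hb).2 (vert a b ha h.symm ▸ ha)
  have d2q1 : Disjoint A2 Q1 := by
    rw [Finset.disjoint_left]
    intro x hx hx'
    simp only [A2, Q1, mem_image] at hx hx'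
    obtain ⟨a, ha, rfl⟩ := hx
    obtain ⟨b, hb, h⟩ := hx'
    rcases key _ _ _ _ _ _ h with h | h
    · exact (hW b hb).2 (h.1 ▸ ha)
    · exact absurd h.2 (by decide)
  have dq : Disjoint Q0 Q1 := by
    rw [Finset.disjoint_left]
    intro x hx hx'
    simp only [Q0, Q1, mem_image] at hx hx'
    obtain ⟨a, ha, rfl⟩ := hx
    obtain ⟨b, hb, h⟩ := hx'
    rcases key _ _ _ _ _ _ h with h' | h'
    · obtain rfl := h'.1
      exact (hW _ hb).2 (mem_filter.2 ⟨(hW _ hb).1, h.symm⟩)
    · exact absurd h'.2 (by decide)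
  have hsum : A0.card + A1.card + A2.card + Q0.card + Q1.card ≤ k := by
    rw [← card_union_of_disjoint d01, ← card_union_of_disjoint
      (disjoint_union_left.2 ⟨d02, d12⟩), ← card_union_of_disjoint
      (disjoint_union_left.2 ⟨disjoint_union_left.2 ⟨d0q0, d1q0⟩, d2q0⟩), ← card_union_of_disjoint
      (disjoint_union_left.2 ⟨disjoint_union_left.2 ⟨disjoint_union_left.2 ⟨d0q1, d1q1⟩, d2q1⟩, dq⟩)]
    simpa using card_le_univ (A0 ∪ A1 ∪ A2 ∪ Q0 ∪ Q1)
  have prop : ∀ (i : Fin 2) (a b : Fin 11), fadj a b = true →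
      c ((a, false), i) ≠ c ((b, false), i) := by
    intro i a b hab h
    have hne : a ≠ b := by
      rintro rfl
      rw [fadj_irrefl] at hab
      exact absurd hab (by decide)
    rcases key _ _ _ _ _ _ h with h | ⟨h, -⟩
    · exact hne h.1
    · rcases h with ⟨-, -, -, h⟩ | ⟨h, -⟩
      · rw [hab] at h
        exact absurd h (by decide)
      · exact hne h
  have b0 := colour_bound W (fun a => c ((a, false), 0)) (fun a _ b _ hab => prop 0 a b hab)
  have b1 := colour_bound W (fun a => c ((a, false), 1)) (fun a _ b _ hab => prop 1 a b hab)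
  change W.card ≤ 2 * Q0.card + 4 at b0
  change W.card ≤ 2 * Q1.card + 4 at b1
  omega

theorem theta_GP : 18 ≤ theta GP := by
  apply le_csInf
  · refine ⟨44, (Fintype.equivFinOfCardEq (by decide)), ?_⟩
    intro u v h hne
    exact absurd ((Fintype.equivFinOfCardEq _).injective h) hne
  · intro k hk
    exact theta_GP_ge hk

/-- **Negative answer.**  There is a finite graph `G` with `θ(G) = γ^∞(G)` and
`γ^∞(G □ K₂) < θ(G □ K₂)`.  (The minima defining these parameters are attained.) -/
theorem result : ∃ (V : Type) (_ : Fintype V) (_ : DecidableEq V) (G : SimpleGraph V),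
    theta G = gammaInf G ∧
      gammaInf (G □ (⊤ : SimpleGraph (Fin 2))) < theta (G □ (⊤ : SimpleGraph (Fin 2))) ∧
      (∃ 𝓓, IsEternal G (gammaInf G) 𝓓) ∧
      (∃ 𝓓, IsEternal (G □ (⊤ : SimpleGraph (Fin 2)))
        (gammaInf (G □ (⊤ : SimpleGraph (Fin 2)))) 𝓓) ∧
      CliquePartition G (theta G) ∧
      CliquePartition (G □ (⊤ : SimpleGraph (Fin 2))) (theta (G □ (⊤ : SimpleGraph (Fin 2)))) := by
  refine ⟨Fin 11 × Bool, inferInstance, inferInstance, G, theta_G.trans gammaInf_G.symm,
    lt_of_le_of_lt gammaInf_GP (lt_of_lt_of_le (by norm_num) theta_GP), ?_, ?_, ?_, ?_⟩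
  · rw [gammaInf_G]
    exact ⟨_, eternal_G⟩
  · have hne : {k | 1 ≤ k ∧ ∃ 𝓓, IsEternal GP k 𝓓}.Nonempty := ⟨17, by norm_num, _, eternal_GP⟩
    exact (Nat.sInf_mem hne).2
  · rw [theta_G]
    exact cover_G
  · have hne : {k | CliquePartition GP k}.Nonempty := by
      refine ⟨44, (Fintype.equivFinOfCardEq (by decide)), ?_⟩
      intro u v h hne
      exact absurd ((Fintype.equivFinOfCardEq _).injective h) hne
    exact Nat.sInf_mem hne

end Pool.Agent.Results.MP_349597_co.CoronaPrism
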